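import Pool.Agent.Helper8.KT.Sheet

/-! Row ST of sheet KT. -/

set_option autoImplicit false

namespace Pool.Agent.Helper88.KT

open Pool.Agent.Helper8.KT

/-- the maximum of the `f i - y i` -/
noncomputable def VV (f : ℕ → ℝ) (n : ℕ) (y : ℕ → ℝ) : ℝ :=
  (Finset.range (n + 2)).sup' ⟨0, by simp⟩ (fun i => f i - y i)

theorem VV_le {f : ℕ → ℝ} {n : ℕ} {y : ℕ → ℝ} {c : ℝ} (h : ∀ i, i ≤ n + 1 → f i - y i ≤ c) :
    VV f n y ≤ c := by
  unfold VV
  refine Finset.sup'_le _ _ fun i hi => h i ?_
  have := Finset.mem_range.1 hi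
  omega

theorem le_VV (f : ℕ → ℝ) (n : ℕ) (y : ℕ → ℝ) {i : ℕ} (hi : i ≤ n + 1) : f i - y i ≤ VV f n y := by
  unfold VV
  exact Finset.le_sup' (fun i => f i - y i) (Finset.mem_range.2 (by omega))

theorem lip_of {n : ℕ} {G : (ℕ → ℝ) → ℝ} (h : ∀ (y y' : ℕ → ℝ) (r : ℝ),
    (∀ j ≤ n, |y j - y' j| ≤ r) → G y ≤ G y' + r) : Lip1 n G := by
  intro y y' r hr
  have h1 := h y y' r hr
  have h2 := h y' y r (fun j hj => by rw [abs_sub_comm]; exact hr j hj)
  rw [abs_le]
  constructor <;> linarith

theorem stST (hMC : ST_MC) : ST_ST := by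
  intro d hd f hf D hD n G hG hI
  obtain ⟨M, hM1, hM2, hM3⟩ := hMC d hd f D hD n G hG (fun y hy hj j => (hI y hy hj j).1)
  have hG' : Lip1 n (fun y => -G y) := by
    intro y y' r hr
    have := hG y y' r hr
    rw [abs_le] at this ⊢
    constructor <;> linarith [this.1, this.2]
  obtain ⟨N, hN1, hN2, hN3⟩ := hMC d hd (fun i => -f i) D hD n (fun y => -G y) hG'
    (fun y hy hj j => by linarith [(hI y hy hj j).2])
  refine ⟨fun y => max (-N y) (min (M y) (VV f n y)), ?_, ?_, ?_⟩
  · refine lip_of fun y y' r hr => ?_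
    have h1 : -N y ≤ -N y' + r := by
      have := hN1 y y' r (fun j hj => hr j (by omega))
      rw [abs_le] at this
      linarith [this.1]
    have h2 : M y ≤ M y' + r := by
      have := hM1 y y' r (fun j hj => hr j (by omega))
      rw [abs_le] at this
      linarith [this.2]
    have h3 : VV f n y ≤ VV f n y' + r := by
      refine VV_le fun i hi => ?_
      have h4 := le_VV f n y' hi
      have h5 := hr i hi
      rw [abs_le] at h5
      linarith [h5.1]
    rw [max_add, min_add]
    exact max_le_max h1 (min_le_min h2 h3)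
  · rintro y hy ⟨i, hi, hiD⟩ j
    constructor
    · refine le_trans ?_ (le_max_right _ _)
      refine le_min (hM3 y hy j) ?_
      refine le_trans ?_ (le_VV f n y hi)
      have h1 := hf j i
      rw [abs_le] at h1
      have h2 := (hy j i).2
      linarith [h1.2]
    · refine max_le ?_ ((min_le_right _ _).trans ?_)
      · have := hN3 y hy j
        linarith
      · refine VV_le fun k _ => ?_
        have h1 := hf k j
        rw [abs_le] at h1
        have h2 := (hy k j).2
        linarith [h1.2]
  · intro y hy hj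
    have h1 := hM2 y hy hj
    have h2 := hN2 y hy hj
    simp only [h1, h2, neg_neg]
    exact max_eq_left (min_le_left _ _)

end Pool.Agent.Helper88.KT
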